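import Pool.Agent.H37.CNL.Stmts
import Pool.Agent.H46.CNQ.QU1

/-!
# Row `VSM` of the board `cnl`: the quotient of a `PCE` by a normal subgroup is a `PCE`
-/

set_option autoImplicit false

namespace Pool.CND

/-- `VSM`: the quotient of `PCE p ρ t P Δ` by a normal subgroup `M` -/
def VSMStmt : Prop := ∀ (p : ℕ) (k L G : Type) [Field k] [IsAlgClosed k] [Field L] [Algebra k L]
  [Group G] [Fintype G] (ρ : G →* (L ≃ₐ[k] L)) (t : L) (P : Place k L) (Δ : L → L)
  (M : Subgroup G) [M.Normal],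
  PCE p ρ t P Δ → ∃ (E : IntermediateField k L) (ρ' : G ⧸ M →* (E ≃ₐ[k] E)) (t' : E)
    (Q : Place k E) (Δ' : E → E), (∀ v : L, v ∈ E ↔ ∀ m ∈ M, ρ m v = v) ∧ (t' : L) = t ∧
    (∀ (g : G) (v : E), ((ρ' (g : G ⧸ M) v : E) : L) = ρ g v) ∧
    (∀ v : E, ((Δ' v : E) : L) = Δ v) ∧ PCE p ρ' t' Q Δ' ∧
    (∀ v : E, v ≠ 0 → (Nat.card M : ℤ) * Q.ord v = P.ord (v : L)) ∧
    ∀ g : G, g ∉ M → sm (fun g => P.b (ρ g)) {y | g⁻¹ * y ∈ M} =
      Nat.card M * Q.b (ρ' (g : G ⧸ M))

/-- change the (irrelevant) value of `ord` at `0` -/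
theorem vsm_upd {k E : Type} [Field k] [Field E] [Algebra k E] (Q : Place k E) (a : ℤ) :
    ∃ Q' : Place k E, Q'.ord 0 = a ∧ ∀ x : E, x ≠ 0 → Q'.ord x = Q.ord x := by
  classical
  refine ⟨{ ord := fun x => if x = 0 then a else Q.ord x
            ord_mul := ?_
            ord_add := ?_
            ord_surj := ?_
            ord_const := ?_
            residue := ?_ }, if_pos rfl, fun x hx => if_neg hx⟩
  · intro x y hx hy
    rw [if_neg (mul_ne_zero hx hy), if_neg hx, if_neg hy]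
    exact Q.ord_mul x y hx hy
  · intro x y hx hy hs
    rw [if_neg hs, if_neg hx, if_neg hy]
    exact Q.ord_add x y hx hy hs
  · obtain ⟨x, hx, h1⟩ := Q.ord_surj
    exact ⟨x, hx, by rw [if_neg hx]; exact h1⟩
  · intro c hc
    rw [if_neg ((map_ne_zero (algebraMap k E)).2 hc)]
    exact Q.ord_const c hc
  · intro x hx h0
    rw [if_neg hx] at h0
    obtain ⟨c, hc⟩ := Q.residue x hx h0
    refine ⟨c, ?_⟩
    by_cases h1 : x - algebraMap k E c = 0
    · left
      exact sub_eq_zero.1 h1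
    · rw [if_neg h1]
      exact hc

open QU1 in
theorem vsm_thm' (hVAS : S_VAS) (hFXP : S_FXP) (_hRST : S_RST) (hHER : S_HER) (hART : S_ART)
    (hRAM : S_RAM) : VSMStmt := by
  intro p k L G _ _ _ _ _ _ ρ t P Δ M _ hP
  obtain ⟨-, hfix, -, hUM, hinj⟩ := hVAS p k L G ρ t P Δ hP
  obtain ⟨E, hE, Q₀, hQ₀⟩ := hFXP k L G P ρ M hinj fun n _ => hfix n
  obtain ⟨Q, hQa, hQb⟩ := vsm_upd Q₀ (-(Nat.card (G ⧸ M) : ℤ))
  have hQ : ∀ x : E, x ≠ 0 → (Nat.card M : ℤ) * Q.ord x = P.ord (x : L) := by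
    intro x hx
    rw [hQb x hx]
    exact hQ₀ x hx
  have hMpos : (0 : ℤ) < Nat.card M := by exact_mod_cast Nat.card_pos
  have hker : M ≤ (resHom ρ M E hE).ker := by
    intro c hc
    rw [MonoidHom.mem_ker]
    ext x
    rw [resHom_apply]
    exact (hE x).1 x.2 c hc
  let ρ' : G ⧸ M →* (E ≃ₐ[k] E) := QuotientGroup.lift M (resHom ρ M E hE) hker
  have hcomp : ∀ (g : G) (v : E), ((ρ' (g : G ⧸ M) v : E) : L) = ρ g v := by
    intro g v
    show ((QuotientGroup.lift M (resHom ρ M E hE) hker (g : G ⧸ M) v : E) : L) = ρ g v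
    rw [QuotientGroup.lift_mk, resHom_apply]
  clear_value ρ'
  have htE : t ∈ E := (hE t).2 fun m _ => hP.tf m
  have hΔE : ∀ v : E, Δ (v : L) ∈ E := by
    intro v
    rw [hE]
    intro m hm
    rw [← hP.cm, (hE v).1 v.2 m hm]
  let t' : E := ⟨t, htE⟩
  have ht' : (t' : L) = t := rfl
  let Δ' : E → E := fun v => ⟨Δ v, hΔE v⟩
  have hΔ' : ∀ v : E, ((Δ' v : E) : L) = Δ v := fun v => rfl
  clear_value t' Δ'
  have hcne : ∀ x : E, x ≠ 0 → (x : L) ≠ 0 := fun x hx h0 => hx (Subtype.ext h0)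
  have hρne : ∀ (g : G) (x : E), x ≠ 0 → ρ' (g : G ⧸ M) x ≠ 0 := by
    intro g x hx
    rw [Ne, map_eq_zero_iff _ (ρ' (g : G ⧸ M)).injective]
    exact hx
  have hfixQ : ∀ g : G, Fixes Q (ρ' (g : G ⧸ M)) := by
    intro g x hx
    have h1 := hQ _ (hρne g x hx)
    rw [hcomp g x, hfix g (x : L) (hcne x hx), ← hQ x hx] at h1
    exact mul_left_cancel₀ hMpos.ne' h1
  have hne1 : ∀ g : G, g ∉ M → ρ' (g : G ⧸ M) ≠ 1 := by
    intro g hg h1
    refine hg (hART k L G ρ M g hinj fun x hx => ?_)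
    have h2 := hcomp g ⟨x, (hE x).2 hx⟩
    rw [h1] at h2
    exact h2.symm
  have hsm : ∀ g : G, g ∉ M → sm (fun g => P.b (ρ g)) {y | g⁻¹ * y ∈ M} =
      Nat.card M * Q.b (ρ' (g : G ⧸ M)) := by
    intro g hg
    exact hHER k L G P ρ M E Q g (ρ' (g : G ⧸ M)) hinj (fun n _ => hfix n) hE hQ hg (hfix g)
      (fun x => hcomp g x) (hfixQ g) (hne1 g hg)
  have hcard : Nat.card G = Nat.card (G ⧸ M) * Nat.card M := Subgroup.card_eq_card_quotient_mul_card_subgroup M
  have hcardZ : (Nat.card G : ℤ) = Nat.card M * Nat.card (G ⧸ M) := by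
    rw [hcard]
    push_cast
    ring
  have hb1 : ∀ g : G, g ∉ M → 1 ≤ Q.b (ρ' (g : G ⧸ M)) := by
    intro g hg
    have h1 := hsm g hg
    have h2 : (0 : ℤ) < sm (fun g => P.b (ρ g)) {y | g⁻¹ * y ∈ M} := by
      classical
      unfold sm
      have hpos : ∀ y ∈ Finset.univ.filter (fun y => y ∈ {y : G | g⁻¹ * y ∈ M}),
          (0 : ℤ) < P.b (ρ y) := by
        intro y hy
        rw [Finset.mem_filter] at hy
        have hy1 : y ≠ 1 := by
          rintro rfl
          have h3 : g⁻¹ * 1 ∈ M := hy.2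
          rw [mul_one] at h3
          exact hg (by simpa using M.inv_mem h3)
        have := hUM.pos y (Subgroup.mem_top y) hy1
        exact lt_of_lt_of_le one_pos this
      have hne : (Finset.univ.filter (fun y => y ∈ {y : G | g⁻¹ * y ∈ M})).Nonempty :=
        ⟨g, by
          rw [Finset.mem_filter]
          refine ⟨Finset.mem_univ _, ?_⟩
          show g⁻¹ * g ∈ M
          rw [inv_mul_cancel]
          exact M.one_mem⟩
      convert Finset.sum_pos hpos hne
    rw [h1] at h2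
    have h3 : 0 < Q.b (ρ' (g : G ⧸ M)) := by
      by_contra h3
      push Not at h3
      have := mul_nonneg hMpos.le (neg_nonneg.2 h3)
      linarith
    omega
  refine ⟨E, ρ', t', Q, Δ', hE, ht', hcomp, hΔ', ?_, hQ, hsm⟩
  refine ⟨hP.pr, hP.ch, ?_, ?_, ?_, ?_, ?_, ?_, ?_, ?_, ?_⟩
  · obtain ⟨n, hn⟩ := hP.cd
    have hd : Nat.card (G ⧸ M) ∣ p ^ n := by
      rw [← hn]
      exact Subgroup.card_quotient_dvd_card M
    obtain ⟨m, -, hm⟩ := (Nat.dvd_prime_pow hP.pr).1 hd
    exact ⟨m, hm⟩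
  · rw [injective_iff_map_eq_one]
    intro a
    induction a using QuotientGroup.induction_on with
    | H g =>
      intro h
      by_contra hc
      refine hne1 g (fun hg => hc ?_) h
      exact (QuotientGroup.eq_one_iff g).2 hg
  · rw [Set.eq_univ_iff_forall]
    intro a
    induction a using QuotientGroup.induction_on with
    | H g =>
      rw [hRAM k E (G ⧸ M) Q ρ' (g : G ⧸ M) 1 le_rfl]
      refine ⟨hfixQ g, ?_⟩
      by_cases hg : g ∈ M
      · left
        rw [(QuotientGroup.eq_one_iff g).2 hg, map_one]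
      · right
        exact_mod_cast hb1 g hg
  · intro a
    induction a using QuotientGroup.induction_on with
    | H g =>
      apply Subtype.ext
      rw [hcomp, ht']
      exact hP.tf g
  · by_cases ht0 : t' = 0
    · rw [ht0]
      exact hQa
    have h1 := hQ t' ht0
    rw [ht', hP.ot, hcardZ] at h1
    have h2 : (Nat.card M : ℤ) * Q.ord t' = Nat.card M * (-(Nat.card (G ⧸ M) : ℤ)) := by
      rw [h1]
      ring
    exact mul_left_cancel₀ hMpos.ne' h2
  · refine ⟨?_, ?_, ?_, ?_⟩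
    · intro x y
      apply Subtype.ext
      rw [hΔ']
      show Δ ((x : L) + y) = ((Δ' x + Δ' y : E) : L)
      rw [hP.dd.add]
      show _ = ((Δ' x : E) : L) + ((Δ' y : E) : L)
      rw [hΔ', hΔ']
    · intro x y
      apply Subtype.ext
      rw [hΔ']
      show Δ ((x : L) * y) = (x : L) * ((Δ' y : E) : L) + (y : L) * ((Δ' x : E) : L)
      rw [hP.dd.mul, hΔ', hΔ']
    · intro c
      apply Subtype.ext
      rw [hΔ']
      exact hP.dd.con c
    · apply Subtype.ext
      rw [hΔ', ht']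
      exact hP.dd.self
  · intro a x
    induction a using QuotientGroup.induction_on with
    | H g =>
      apply Subtype.ext
      rw [hΔ', hcomp, hcomp, hΔ']
      exact hP.cm g x
  · intro x
    have hit : ∀ (n : ℕ) (v : E), ((Δ'^[n] v : E) : L) = Δ^[n] (v : L) := by
      intro n
      induction n with
      | zero => intro v; rfl
      | succ n ih =>
        intro v
        rw [Function.iterate_succ_apply, Function.iterate_succ_apply, ih, hΔ']
    apply Subtype.ext
    rw [hit, hΔ']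
    exact hP.dp x
  · intro x hx hxf
    have hxf' : ∀ g : G, ρ g (x : L) = x := by
      intro g
      rw [← hcomp g x, hxf]
    obtain ⟨h1, h2⟩ := hP.base (x : L) (hcne x hx) hxf'
    refine ⟨?_, ?_⟩
    · by_cases h0 : Δ' x = 0
      · exact Or.inl h0
      · right
        have h3 : Δ (x : L) ≠ 0 := by
          rw [← hΔ']
          exact hcne _ h0
        have h4 := h1.resolve_left h3
        rw [← hΔ', ← hQ _ h0, ← hQ x hx] at h4
        exact le_of_mul_le_mul_left h4 hMpos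
    · intro m hm hpm
      have h3 : P.ord (x : L) = Nat.card G * m := by
        rw [← hQ x hx, hm, hcardZ]
        ring
      obtain ⟨h4, h5⟩ := h2 m h3 hpm
      have h6 : Δ' x ≠ 0 := by
        intro h6
        apply h4
        rw [← hΔ', h6]
        rfl
      refine ⟨h6, ?_⟩
      rw [← hΔ', ← hQ _ h6, ← hQ x hx] at h5
      exact mul_left_cancel₀ hMpos.ne' h5

theorem vsm_thm (hVAS : S_VAS) (hFXP : S_FXP) (hRST : S_RST) (hHER : S_HER) (hART : S_ART)
    (hRAM : S_RAM) : S_VSM :=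
  vsm_thm' hVAS hFXP hRST hHER hART hRAM

end Pool.CND
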